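import Pool.Agent.Helper26.LU.Goals

/-!
# Project LU, goal M3: approximate identity on the rotation group
-/

namespace Pool.Agent.Helper61.LU

open Pool.Agent.Helper26.LU
open MeasureTheory Matrix Real Filter

theorem adj_SO3 {R : M3} (h : R ∈ SO3) : R.adjugate = Rᵀ := by
  have h1 : R * R.adjugate = 1 := by
    rw [Matrix.mul_adjugate, ((mem_SO3 R).1 h).2, one_smul]
  calc R.adjugate = (Rᵀ * R) * R.adjugate := by rw [SO3_left h, one_mul]
    _ = Rᵀ * (R * R.adjugate) := by rw [Matrix.mul_assoc]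
    _ = Rᵀ := by rw [h1, mul_one]

theorem trace_quad {R : M3} (h : R ∈ SO3) :
    0 ≤ (3 - Matrix.trace R) * (1 + Matrix.trace R) := by
  have hadj := adj_SO3 h
  rw [Matrix.adjugate_fin_three] at hadj
  have a0 := congrFun (congrFun hadj 0) 0
  have a1 := congrFun (congrFun hadj 1) 1
  have a2 := congrFun (congrFun hadj 2) 2
  have r0 := congrFun (congrFun ((mem_SO3 R).1 h).1 0) 0
  have r1 := congrFun (congrFun ((mem_SO3 R).1 h).1 1) 1
  have r2 := congrFun (congrFun ((mem_SO3 R).1 h).1 2) 2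
  simp only [Matrix.mul_apply, Matrix.transpose_apply, Fin.sum_univ_three, Matrix.one_apply_eq]
    at r0 r1 r2
  simp at a0 a1 a2
  rw [Matrix.trace_fin_three]
  nlinarith [sq_nonneg (R 0 1 - R 1 0), sq_nonneg (R 0 2 - R 2 0), sq_nonneg (R 1 2 - R 2 1)]

theorem trace_bd {R : M3} (h : R ∈ SO3) : 0 ≤ 1 + Matrix.trace R ∧ Matrix.trace R ≤ 3 := by
  have hq := trace_quad h
  constructor
  · by_contra hc
    push Not at hc
    nlinarith
  · by_contra hc
    push Not at hc
    nlinarith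

theorem cont_tr : Continuous fun R : ↥SO3 => 1 + Matrix.trace R.1 :=
  continuous_const.add (continuous_subtype_val (p := fun R : M3 => R ∈ SO3)).matrix_trace

theorem int_pow (μ : Measure ↥SO3) [IsProbabilityMeasure μ] (n : ℕ) :
    Integrable (fun R : ↥SO3 => (1 + Matrix.trace R.1) ^ n) μ :=
  (cont_tr.pow n).integrable_of_hasCompactSupport (HasCompactSupport.of_compactSpace _)

theorem key (μ : Measure ↥SO3) [IsProbabilityMeasure μ] {δ : ℝ} (h0 : 0 < δ) (h2 : δ ≤ 2)
    (hU : 0 < μ {R : ↥SO3 | 4 - δ / 2 < 1 + Matrix.trace R.1}) {η : ℝ} (hη : 0 < η) : ∃ n : ℕ,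
    0 < ∫ R : ↥SO3, (1 + Matrix.trace R.1) ^ n ∂μ ∧
    ∫ R in {R : ↥SO3 | Matrix.trace R.1 ≤ 3 - δ}, (1 + Matrix.trace R.1) ^ n ∂μ
      ≤ η * ∫ R : ↥SO3, (1 + Matrix.trace R.1) ^ n ∂μ := by
  set U : Set ↥SO3 := {R : ↥SO3 | 4 - δ / 2 < 1 + Matrix.trace R.1} with hUdef
  set A : Set ↥SO3 := {R : ↥SO3 | Matrix.trace R.1 ≤ 3 - δ} with hAdef
  have hUo : IsOpen U := isOpen_lt continuous_const cont_tr
  have hA : MeasurableSet A := by
    have : A = {R : ↥SO3 | 1 + Matrix.trace R.1 ≤ 4 - δ} := by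
      ext R
      simp only [hAdef, Set.mem_ofPred_eq]
      constructor <;> intro h <;> linarith
    rw [this]
    exact (isClosed_le cont_tr continuous_const).measurableSet
  have hm : 0 < μ.real U := by
    rw [Measure.real]
    exact ENNReal.toReal_pos hU.ne' (measure_ne_top μ U)
  have hq0 : 0 ≤ (4 - δ) / (4 - δ / 2) := div_nonneg (by linarith) (by linarith)
  have hq1 : (4 - δ) / (4 - δ / 2) < 1 := by
    rw [div_lt_one (by linarith)]
    linarith
  obtain ⟨n, hn⟩ := exists_pow_lt_of_lt_one (mul_pos hη hm) hq1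
  have hpos : 0 < (4 - δ / 2) ^ n := pow_pos (by linarith) n
  have hlow : μ.real U * (4 - δ / 2) ^ n ≤ ∫ R : ↥SO3, (1 + Matrix.trace R.1) ^ n ∂μ := by
    calc μ.real U * (4 - δ / 2) ^ n = ∫ _R in U, (4 - δ / 2) ^ n ∂μ := by
          rw [setIntegral_const, smul_eq_mul]
      _ ≤ ∫ R in U, (1 + Matrix.trace R.1) ^ n ∂μ := by
          refine setIntegral_mono_on ?_ (int_pow μ n).integrableOn hUo.measurableSet ?_
          · exact integrableOn_const
          · intro R hR
            exact pow_le_pow_left₀ (by linarith) (le_of_lt hR) n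
      _ ≤ ∫ R : ↥SO3, (1 + Matrix.trace R.1) ^ n ∂μ := by
          refine setIntegral_le_integral (int_pow μ n) ?_
          exact Eventually.of_forall fun R => pow_nonneg (trace_bd R.2).1 n
  have hup : ∫ R in A, (1 + Matrix.trace R.1) ^ n ∂μ ≤ (4 - δ) ^ n := by
    calc ∫ R in A, (1 + Matrix.trace R.1) ^ n ∂μ ≤ ∫ _R in A, (4 - δ) ^ n ∂μ := by
          refine setIntegral_mono_on (int_pow μ n).integrableOn ?_ hA ?_
          · exact integrableOn_const
          · intro R hR
            have hR' : Matrix.trace R.1 ≤ 3 - δ := hR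
            exact pow_le_pow_left₀ (trace_bd R.2).1 (by linarith) n
      _ = μ.real A * (4 - δ) ^ n := by rw [setIntegral_const, smul_eq_mul]
      _ ≤ 1 * (4 - δ) ^ n :=
          mul_le_mul_of_nonneg_right measureReal_le_one (pow_nonneg (by linarith) n)
      _ = (4 - δ) ^ n := one_mul _
  refine ⟨n, lt_of_lt_of_le (mul_pos hm hpos) hlow, ?_⟩
  rw [div_pow, div_lt_iff₀ hpos] at hn
  calc ∫ R in A, (1 + Matrix.trace R.1) ^ n ∂μ ≤ (4 - δ) ^ n := hup
    _ ≤ η * (μ.real U * (4 - δ / 2) ^ n) := by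
        rw [← mul_assoc]
        exact hn.le
    _ ≤ η * ∫ R : ↥SO3, (1 + Matrix.trace R.1) ^ n ∂μ :=
        mul_le_mul_of_nonneg_left hlow hη.le

theorem gM3 : G_M3 := by
  intro μ hμ
  have hp : IsProbabilityMeasure μ := hμ.prob
  refine ⟨fun R hR => trace_bd hR, ?_⟩
  intro δ hδ η hη
  have hmin : 0 < min δ 2 := lt_min hδ (by norm_num)
  obtain ⟨n, h1, h2⟩ := key μ hmin (min_le_right δ 2) (hμ.opn _
    (isOpen_lt continuous_const cont_tr) ⟨⟨1, SO3_one⟩, by
      simp only [Set.mem_ofPred_eq, Matrix.trace_one, Fintype.card_fin]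
      norm_num
      exact hδ⟩) hη
  refine ⟨n, h1, le_trans ?_ h2⟩
  refine setIntegral_mono_set (int_pow μ n).integrableOn ?_ ?_
  · exact Eventually.of_forall fun R => pow_nonneg (trace_bd R.2).1 n
  · refine Eventually.of_forall fun R hR => ?_
    have hR' : Matrix.trace R.1 ≤ 3 - δ := hR
    exact le_trans hR' (by linarith [min_le_left δ 2])

end Pool.Agent.Helper61.LU
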